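import Pool.Agent.W485.Ext

/-!
The algebra `AA` is smooth over the complex numbers.
-/

namespace Pool.Agent.W460.OVS

open Polynomial Pool.Agent.W485

noncomputable section

/-- The exponent `t_i ^ (-2) t_{i+2} ^ 2`. -/
def ns : Fin 4 → G := ![mkG (-2) 0 2, mkG 0 (-2) 0, mkG 2 0 (-2), mkG 0 2 0]

lemma co_ns_self (i : Fin 4) : co i (ns i) = -2 := by revert i; decide

lemma co_ns_ne (i j : Fin 4) (h : j ≠ i) : 0 ≤ co j (ns i) := by revert i j; decide

lemma expo_aux (i : Fin 4) (n : G) (a b c d N M : ℤ) (h1 : co i n = b - 2 * a)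
    (h2 : co (i + 1) n + N = b + c) (h3 : co (i + 3) n + M = d) :
    n + (N • pr (i + 1) + M • pr (i + 2)) =
      a • ns i + (b • pr i + (c • pr (i + 1) + d • pr (i + 2))) := by
  have hr := co_rel n
  obtain ⟨m1, m2, m3⟩ := n
  rw [co0, co1, co2, co3] at hr
  fin_cases i <;>
  · simp only [Fin.zero_eta, Fin.mk_one, Fin.reduceFinMk, Fin.reduceAdd, zero_add, co0, co1, co2,
      co3, Fin.isValue] at h1 h2 h3 ⊢
    apply G_ext <;> simp only [co0, co1, co2, pr, ns, mkG, Prod.fst_add, Prod.snd_add,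
      Matrix.cons_val, Prod.smul_mk, smul_eq_mul] <;> omega

lemma expo (i : Fin 4) (n : G) : ∃ N M b N' M' : ℕ,
    n + (N • pr (i + 1) + M • pr (i + 2)) =
      cw (co i n) • ns i + (b • pr i + (N' • pr (i + 1) + M' • pr (i + 2))) := by
  have hb : 0 ≤ co i n + 2 * (cw (co i n) : ℤ) := by unfold cw; omega
  refine ⟨(co i n + 2 * (cw (co i n) : ℤ) - co (i + 1) n).toNat, (-(co (i + 3) n)).toNat,
    (co i n + 2 * (cw (co i n) : ℤ)).toNat,
    (co (i + 1) n - (co i n + 2 * (cw (co i n) : ℤ))).toNat, (co (i + 3) n).toNat, ?_⟩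
  have := expo_aux i n (cw (co i n)) ((co i n + 2 * (cw (co i n) : ℤ)).toNat : ℕ)
    ((co (i + 1) n - (co i n + 2 * (cw (co i n) : ℤ))).toNat : ℕ) ((co (i + 3) n).toNat : ℕ)
    ((co i n + 2 * (cw (co i n) : ℤ) - co (i + 1) n).toNat : ℕ) ((-(co (i + 3) n)).toNat : ℕ)
    (by omega) (by omega) (by omega)
  simpa only [natCast_zsmul] using this

lemma expo_lin (i : Fin 4) : ns i + 2 • pr i = 2 • pr (i + 1) := by revert i; decide

lemma cw_neg_pr (j k : Fin 4) : cw (co j (-pr k)) = if j = k then 1 else if j = k + 1 then 1 else 0 := by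
  revert j k; decide

/-! ### The chart -/

/-- The first generator of the chart. -/
def sA (i : Fin 4) : AA := mkA (sg (ns i) (l i)) (sg_mem.2 fun j => by
  by_cases h : j = i
  · subst h
    rw [co_ns_self]
    exact dvd_of_eq (pow_one _)
  · rw [cw_nonneg (co_ns_ne i j h), pow_zero]; exact one_dvd _)

/-- The monomials `t_i t_{i+1}`. -/
def prA (i : Fin 4) : AA := mkA (tt (pr i)) (pr_mem i)

/-- The polynomial ring in four variables. -/
abbrev S : Type := MvPolynomial (Fin 4) ℂ

/-- The chart map. -/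
def phi (i : Fin 4) : S →ₐ[ℂ] AA := MvPolynomial.aeval ![sA i, prA i, prA (i + 1), prA (i + 2)]

lemma phi0 (i : Fin 4) : phi i (MvPolynomial.X 0) = sA i := by
  unfold phi; rw [MvPolynomial.aeval_X]; rfl
lemma phi1 (i : Fin 4) : phi i (MvPolynomial.X 1) = prA i := by
  unfold phi; rw [MvPolynomial.aeval_X]; rfl
lemma phi2 (i : Fin 4) : phi i (MvPolynomial.X 2) = prA (i + 1) := by
  unfold phi; rw [MvPolynomial.aeval_X]; rfl
lemma phi3 (i : Fin 4) : phi i (MvPolynomial.X 3) = prA (i + 2) := by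
  unfold phi; rw [MvPolynomial.aeval_X]; rfl

/-- The polynomials representing `p ^ 2 (z - y_j)`. -/
def lin (i j : Fin 4) : S :=
  algebraMap ℂ S (y i - y j) * MvPolynomial.X 2 ^ 2 + MvPolynomial.X 0 * MvPolynomial.X 1 ^ 2

lemma inc_sA (i : Fin 4) : inc (sA i) = sg (ns i) (l i) := rfl
lemma inc_prA (i : Fin 4) : inc (prA i) = tt (pr i) := rfl
lemma inc_pz (P : ℂ[X]) : inc (pz P) = sg 0 P := rfl

lemma algMap_R (c : ℂ) : algebraMap ℂ R c = sg 0 (C c) := rfl

lemma phi_lin (i j : Fin 4) : phi i (lin i j) = pz (l j) * prA (i + 1) ^ 2 := by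
  unfold lin
  rw [map_add, map_mul, map_mul, map_pow, map_pow, phi0, phi1, phi2, AlgHom.commutes]
  apply inc_inj
  rw [map_add, map_mul, map_mul, map_mul, map_pow, map_pow, AlgHom.commutes, inc_sA, inc_prA,
    inc_prA, inc_pz, algMap_R, tt_pow, tt_pow, sg_mul, sg_mul, sg_mul, expo_lin, zero_add, mul_one,
    mul_one, mul_one, ← sg_add]
  congr 1
  unfold l
  rw [map_sub]
  ring

/-- The ring homomorphism `P ↦ P(z)`. -/
def pzH : ℂ[X] →ₐ[ℂ] AA := aeval zA

lemma pzH_eq (P : ℂ[X]) : pzH P = pz P := (pz_eq P).symm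

/-- The polynomial `∏_{j ≠ i} (X - y_j)`. -/
def ee (i : Fin 4) : ℂ[X] := l (i + 1) * l (i + 2) * l (i + 3)

lemma pz_mul (P Q : ℂ[X]) : pz (P * Q) = pz P * pz Q := by
  rw [← pzH_eq, ← pzH_eq, ← pzH_eq, map_mul]

/-- The product of the three polynomials representing `p ^ 2 (z - y_j)`, `j ≠ i`. -/
def qq (i : Fin 4) : S := lin i (i + 1) * lin i (i + 2) * lin i (i + 3)

lemma phi_qq (i : Fin 4) : phi i (qq i) = prA (i + 1) ^ 6 * pz (ee i) := by
  unfold qq ee
  rw [map_mul, map_mul, phi_lin, phi_lin, phi_lin, pz_mul, pz_mul]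
  ring

/-- The element inverted in the chart. -/
def qe (i : Fin 4) : S := MvPolynomial.X 2 * MvPolynomial.X 3 * qq i

lemma prA_dvd (k : Fin 4) : prA k ∣ pz (l k * l (k + 1)) := by
  have hmem : sg (-pr k) (l k * l (k + 1)) ∈ A := by
    rw [sg_mem]
    intro j
    rw [cw_neg_pr]
    split_ifs with h1 h2
    · rw [h1, pow_one]; exact Dvd.intro _ rfl
    · rw [h2, pow_one]; exact Dvd.intro_left _ rfl
    · rw [pow_zero]; exact one_dvd _
  refine ⟨mkA _ hmem, inc_inj ?_⟩
  rw [map_mul, inc_prA, inc_mkA, inc_pz, sg_mul, add_neg_cancel, one_mul]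

lemma prA_dvd_ee1 (i : Fin 4) : prA (i + 1) ∣ pz (ee i) := by
  refine (prA_dvd (i + 1)).trans ?_
  unfold ee
  rw [pz_mul (l (i + 1) * l (i + 2))]
  have : i + 1 + 1 = i + 2 := by revert i; decide
  rw [this]
  exact Dvd.intro _ rfl

lemma prA_dvd_ee2 (i : Fin 4) : prA (i + 2) ∣ pz (ee i) := by
  refine (prA_dvd (i + 2)).trans ?_
  unfold ee
  rw [mul_assoc, pz_mul (l (i + 1))]
  have : i + 2 + 1 = i + 3 := by revert i; decide
  rw [this]
  exact Dvd.intro_left _ rfl

/-- The localisation of `AA`. -/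
abbrev T (i : Fin 4) : Type := Localization.Away (pz (ee i))

/-- The localisation map. -/
def al (i : Fin 4) : AA →ₐ[ℂ] T i := IsScalarTower.toAlgHom ℂ AA (T i)

lemma al_apply (i : Fin 4) (a : AA) : al i a = algebraMap AA (T i) a := rfl

/-- The map from the polynomial ring to the localisation. -/
def psi (i : Fin 4) : S →ₐ[ℂ] T i := (al i).comp (phi i)

lemma psi_apply (i : Fin 4) (s : S) : psi i s = al i (phi i s) := rfl

lemma isUnit_ee (i : Fin 4) : IsUnit (al i (pz (ee i))) :=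
  IsLocalization.Away.algebraMap_isUnit _

lemma isUnit_psi (i : Fin 4) : IsUnit (psi i (qe i)) := by
  unfold qe
  rw [psi_apply, map_mul (phi i), map_mul (phi i), phi2, phi3, phi_qq, map_mul, map_mul, map_mul,
    map_pow]
  have h := isUnit_ee i
  have h1 : IsUnit (al i (prA (i + 1))) := isUnit_of_dvd_unit (map_dvd _ (prA_dvd_ee1 i)) h
  have h2 : IsUnit (al i (prA (i + 2))) := isUnit_of_dvd_unit (map_dvd _ (prA_dvd_ee2 i)) h
  exact (h1.mul h2).mul ((h1.pow 6).mul h)

lemma isUnit_psi' (i : Fin 4) (s : Submonoid.powers (qe i)) : IsUnit (psi i s) := by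
  obtain ⟨_, k, rfl⟩ := s
  change IsUnit (psi i (qe i ^ k))
  rw [map_pow]
  exact (isUnit_psi i).pow k

/-- The localisation of the polynomial ring. -/
abbrev L (i : Fin 4) : Type := Localization.Away (qe i)

/-- The comparison map. -/
def lam (i : Fin 4) : L i →ₐ[ℂ] T i := IsLocalization.liftAlgHom (isUnit_psi' i)

lemma lam_algebraMap (i : Fin 4) (s : S) : lam i (algebraMap S (L i) s) = psi i s :=
  IsLocalization.lift_eq _ _

lemma psi_mem (i : Fin 4) (s : S) : psi i s ∈ (lam i).range := ⟨_, lam_algebraMap i s⟩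

lemma mem_of_mul (i : Fin 4) {s : S} (hs : s ∣ qe i) {y : T i}
    (h : psi i s * y ∈ (lam i).range) : y ∈ (lam i).range := by
  have hu : IsUnit (algebraMap S (L i) s) :=
    isUnit_of_dvd_unit (map_dvd _ hs) (IsLocalization.Away.algebraMap_isUnit _)
  obtain ⟨u, hu⟩ := hu
  obtain ⟨w, hw⟩ := h
  refine ⟨↑u⁻¹ * w, ?_⟩
  change lam i (↑u⁻¹ * w) = y
  change lam i w = _ at hw
  rw [map_mul, hw, ← lam_algebraMap, ← hu, ← mul_assoc, ← map_mul, Units.inv_mul, map_one, one_mul]

lemma mem_of_pow_mul (i : Fin 4) {s : S} (hs : s ∣ qe i) (k : ℕ) {y : T i}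
    (h : psi i s ^ k * y ∈ (lam i).range) : y ∈ (lam i).range := by
  induction k with
  | zero => simpa using h
  | succ k ih =>
    rw [pow_succ', mul_assoc] at h
    exact ih (mem_of_mul i hs h)

lemma dvd2 (i : Fin 4) : MvPolynomial.X 2 ∣ qe i := by
  unfold qe; rw [mul_assoc]; exact Dvd.intro _ rfl
lemma dvd3 (i : Fin 4) : MvPolynomial.X 3 ∣ qe i := by
  unfold qe; rw [mul_comm (MvPolynomial.X 2), mul_assoc]; exact Dvd.intro _ rfl
lemma dvdq (i : Fin 4) : qq i ∣ qe i := Dvd.intro_left _ rfl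

lemma pz_mem (i : Fin 4) (P : ℂ[X]) : al i (pz P) ∈ (lam i).range := by
  have hz : al i zA ∈ (lam i).range := by
    have h0 : al i (pz (l i)) ∈ (lam i).range := by
      refine mem_of_pow_mul i (dvd2 i) 2 ?_
      have := psi_mem i (lin i i)
      rw [psi_apply, phi_lin, map_mul, map_pow, mul_comm] at this
      rwa [psi_apply, phi2]
    have h1 : zA = pz (l i) + algebraMap ℂ AA (y i) := by
      apply inc_inj
      rw [map_add, AlgHom.commutes, inc_pz, algMap_R, ← sg_add]
      unfold l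
      rw [sub_add_cancel]
      rfl
    rw [h1, map_add, AlgHom.commutes]
    exact add_mem h0 (Subalgebra.algebraMap_mem _ _)
  have h2 : al i (pz P) = aeval (al i zA) P :=
    (congrArg (al i) (pz_eq P)).trans (Polynomial.aeval_algHom_apply _ _ _).symm
  rw [h2]
  have h1 : Algebra.adjoin ℂ {al i zA} ≤ (lam i).range := Algebra.adjoin_le (by simpa using hz)
  exact h1 (Polynomial.aeval_mem_adjoin_singleton ℂ _)

lemma sg_mem' (i : Fin 4) (n : G) (P : ℂ[X]) (h : sg n P ∈ A) :
    al i (mkA (sg n P) h) ∈ (lam i).range := by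
  obtain ⟨Q, hQ⟩ := (sg_mem.1 h) i
  obtain ⟨N, M, b, N', M', he⟩ := expo i n
  have key : prA (i + 1) ^ N * (prA (i + 2) ^ M * mkA (sg n P) h) =
      pz Q * (sA i ^ cw (co i n) * (prA i ^ b * (prA (i + 1) ^ N' * prA (i + 2) ^ M'))) := by
    apply inc_inj
    rw [map_mul, map_mul, map_mul, map_mul, map_mul, map_mul, map_pow, map_pow, map_pow, map_pow,
      map_pow, map_pow, inc_mkA, inc_pz, inc_sA, inc_prA, inc_prA, inc_prA, tt_pow, tt_pow, tt_pow,
      tt_pow, tt_pow, sg_pow, sg_mul, sg_mul, sg_mul, sg_mul, sg_mul, sg_mul, zero_add, ← he, hQ]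
    congr 1
    · abel
    · ring
  refine mem_of_pow_mul i (dvd3 i) M (mem_of_pow_mul i (dvd2 i) N ?_)
  rw [psi_apply, psi_apply, phi2, phi3, ← map_pow, ← map_pow, ← map_mul, ← map_mul, key, map_mul,
    map_mul, map_mul, map_mul, map_pow, map_pow, map_pow, map_pow]
  refine mul_mem (pz_mem i Q) (mul_mem (pow_mem ?_ _) (mul_mem (pow_mem ?_ _)
    (mul_mem (pow_mem ?_ _) (pow_mem ?_ _))))
  · rw [← phi0]; exact psi_mem i _
  · rw [← phi1]; exact psi_mem i _
  · rw [← phi2]; exact psi_mem i _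
  · rw [← phi3]; exact psi_mem i _

lemma al_mem (i : Fin 4) (a : AA) : al i a ∈ (lam i).range := by
  have key : ∀ F (hF : F ∈ A), al i (mkA F hF) ∈ (lam i).range := by
    intro F hF
    refine A_induction (p := fun F => ∀ hF : F ∈ A, al i (mkA F hF) ∈ (lam i).range) ?_ ?_ ?_ hF hF
    · intro h
      have : mkA 0 h = 0 := rfl
      rw [this, map_zero]
      exact zero_mem _
    · intro a ha b hb iha ihb h
      have : mkA (a + b) h = mkA a ha + mkA b hb := rfl
      rw [this, map_add]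
      exact add_mem (iha ha) (ihb hb)
    · intro n P _ h
      exact sg_mem' i n P h
  exact key (inc a) (inc_mem a)

lemma lam_surj (i : Fin 4) : Function.Surjective (lam i) := by
  intro t
  obtain ⟨n, a, ha⟩ := IsLocalization.Away.surj (pz (ee i)) t
  have h : t ∈ (lam i).range := by
    refine mem_of_pow_mul i (dvdq i) n ?_
    rw [psi_apply, phi_qq, map_mul, map_pow, mul_pow, mul_assoc]
    have h1 : al i (pz (ee i)) ^ n * t = al i a := by
      rw [mul_comm]; exact ha
    rw [h1]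
    exact mul_mem (pow_mem (pow_mem (al_mem i _) _) _) (al_mem i a)
  exact h

/-! ### Injectivity -/

/-- The field of fractions. -/
abbrev K : Type := FractionRing S

/-- The value of `z`. -/
def wz (i : Fin 4) : K :=
  algebraMap ℂ K (y i) + algebraMap S K (MvPolynomial.X 0) * algebraMap S K (MvPolynomial.X 1) ^ 2 *
    (algebraMap S K (MvPolynomial.X 2) ^ 2)⁻¹

lemma aX_ne (j : Fin 4) : algebraMap S K (MvPolynomial.X j) ≠ 0 := by
  rw [Ne, map_eq_zero_iff _ (IsFractionRing.injective S K)]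
  exact MvPolynomial.X_ne_zero j

/-- The value of the monomials. -/
def gm (i : Fin 4) : Multiplicative G →* K where
  toFun n := (algebraMap S K (MvPolynomial.X 1) * (algebraMap S K (MvPolynomial.X 2))⁻¹) ^ (co i n.toAdd) *
    algebraMap S K (MvPolynomial.X 2) ^ (co (i + 1) n.toAdd) *
    algebraMap S K (MvPolynomial.X 3) ^ (co (i + 3) n.toAdd)
  map_one' := by
    simp
  map_mul' a b := by
    have h1 := aX_ne 1
    have h2 := aX_ne 2
    have h3 := aX_ne 3
    simp only [toAdd_mul, map_add]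
    rw [zpow_add₀ (mul_ne_zero h1 (inv_ne_zero h2)), zpow_add₀ h2, zpow_add₀ h3]
    ring

lemma gm_apply (i : Fin 4) (n : G) : gm i (Multiplicative.ofAdd n) =
    (algebraMap S K (MvPolynomial.X 1) * (algebraMap S K (MvPolynomial.X 2))⁻¹) ^ (co i n) *
      algebraMap S K (MvPolynomial.X 2) ^ (co (i + 1) n) *
      algebraMap S K (MvPolynomial.X 3) ^ (co (i + 3) n) := rfl

lemma co_facts_a (i : Fin 4) : co (i + 1) (ns i) = 0 := by revert i; decide
lemma co_facts_b (i : Fin 4) : co (i + 3) (ns i) = 0 := by revert i; decide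
lemma co_facts_c (i : Fin 4) : co i (pr i) = 1 ∧ co (i + 1) (pr i) = 1 ∧ co (i + 3) (pr i) = 0 := by
  revert i; decide
lemma co_facts_d (i : Fin 4) : co i (pr (i + 1)) = 0 ∧ co (i + 1) (pr (i + 1)) = 1 ∧
    co (i + 3) (pr (i + 1)) = 0 := by revert i; decide
lemma co_facts_e (i : Fin 4) : co i (pr (i + 2)) = 0 ∧ co (i + 1) (pr (i + 2)) = 0 ∧
    co (i + 3) (pr (i + 2)) = 1 := by revert i; decide

/-- The ring homomorphism to the field of fractions. -/
def Phi (i : Fin 4) : R →+* K :=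
  AddMonoidAlgebra.liftNCRingHom ((aeval (wz i) : ℂ[X] →ₐ[ℂ] K) : ℂ[X] →+* K) (gm i)
    (fun _ _ => Commute.all _ _)

lemma Phi_sg (i : Fin 4) (n : G) (P : ℂ[X]) :
    Phi i (sg n P) = aeval (wz i) P * gm i (Multiplicative.ofAdd n) := by
  unfold Phi
  exact AddMonoidAlgebra.liftNC_single _ _ _ _

lemma Phi_phi (i : Fin 4) (s : S) : Phi i (inc (phi i s)) = algebraMap S K s := by
  have h : (Phi i).comp ((inc.comp (phi i) : S →ₐ[ℂ] R) : S →+* R) = algebraMap S K := by
    have h1 := aX_ne 1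
    have h2 := aX_ne 2
    have h3 := aX_ne 3
    apply MvPolynomial.ringHom_ext
    · intro r
      have e1 : (MvPolynomial.C r : S) = algebraMap ℂ S r := rfl
      rw [e1, RingHom.comp_apply, ← IsScalarTower.algebraMap_apply ℂ S K]
      change Phi i (inc (phi i (algebraMap ℂ S r))) = _
      rw [AlgHom.commutes, AlgHom.commutes, algMap_R, Phi_sg, aeval_C, ofAdd_zero, map_one, mul_one]
    · intro j
      rw [RingHom.comp_apply]
      change Phi i (inc (phi i (MvPolynomial.X j))) = _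
      fin_cases j
      · change Phi i (inc (phi i (MvPolynomial.X 0))) = algebraMap S K (MvPolynomial.X 0)
        rw [phi0, inc_sA, Phi_sg, gm_apply, co_ns_self, co_facts_a i, co_facts_b i, zpow_zero,
          zpow_zero, mul_one, mul_one]
        have e2 : aeval (wz i) (l i) = algebraMap S K (MvPolynomial.X 0) *
            algebraMap S K (MvPolynomial.X 1) ^ 2 * (algebraMap S K (MvPolynomial.X 2) ^ 2)⁻¹ := by
          unfold l wz
          rw [map_sub, aeval_X, aeval_C, add_sub_cancel_left]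
        rw [e2, zpow_neg, show (2 : ℤ) = ((2 : ℕ) : ℤ) from rfl, zpow_natCast]
        field_simp
      · change Phi i (inc (phi i (MvPolynomial.X 1))) = algebraMap S K (MvPolynomial.X 1)
        rw [phi1, inc_prA, Phi_sg, map_one, one_mul, gm_apply, (co_facts_c i).1,
          (co_facts_c i).2.1, (co_facts_c i).2.2, zpow_zero, zpow_one, zpow_one, mul_one, mul_assoc,
          inv_mul_cancel₀ h2, mul_one]
      · change Phi i (inc (phi i (MvPolynomial.X 2))) = algebraMap S K (MvPolynomial.X 2)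
        rw [phi2, inc_prA, Phi_sg, map_one, one_mul, gm_apply, (co_facts_d i).1,
          (co_facts_d i).2.1, (co_facts_d i).2.2, zpow_zero, zpow_zero, zpow_one, mul_one, one_mul]
      · change Phi i (inc (phi i (MvPolynomial.X 3))) = algebraMap S K (MvPolynomial.X 3)
        rw [phi3, inc_prA, Phi_sg, map_one, one_mul, gm_apply, (co_facts_e i).1,
          (co_facts_e i).2.1, (co_facts_e i).2.2, zpow_zero, zpow_zero, zpow_one, mul_one, one_mul]
  exact RingHom.congr_fun h s

lemma phi_inj (i : Fin 4) : Function.Injective (phi i) := by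
  intro a b h
  apply IsFractionRing.injective S K
  rw [← Phi_phi i a, ← Phi_phi i b, h]

lemma ee_ne (i : Fin 4) : ee i ≠ 0 := by
  unfold ee l
  exact mul_ne_zero (mul_ne_zero (X_sub_C_ne_zero _) (X_sub_C_ne_zero _)) (X_sub_C_ne_zero _)

lemma pz_ee_ne (i : Fin 4) : pz (ee i) ≠ 0 := by
  intro h
  have := congrArg inc h
  rw [inc_pz, map_zero] at this
  exact sg_ne_zero.2 (ee_ne i) this

lemma al_inj (i : Fin 4) : Function.Injective (al i) :=
  IsLocalization.injective (T i) (powers_le_nonZeroDivisors_of_noZeroDivisors (pz_ee_ne i))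

lemma psi_inj (i : Fin 4) : Function.Injective (psi i) := by
  intro a b h
  exact phi_inj i (al_inj i h)

lemma qe_ne (i : Fin 4) : qe i ≠ 0 := by
  intro h
  have := isUnit_psi i
  rw [h, map_zero] at this
  have h0 : (0 : T i) ≠ 1 := by
    intro h1
    have : (0 : AA) = 1 := al_inj i (by rw [map_zero, map_one, h1])
    exact zero_ne_one this
  exact h0 (isUnit_zero_iff.1 this)

lemma lam_inj (i : Fin 4) : Function.Injective (lam i) := by
  have h := (IsLocalization.lift_injective_iff (S := L i) (M := Submonoid.powers (qe i))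
    (g := (psi i : S →+* T i)) (isUnit_psi' i)).2 (by
      intro x y
      constructor
      · intro hxy
        rw [IsLocalization.injective (L i)
          (powers_le_nonZeroDivisors_of_noZeroDivisors (qe_ne i)) hxy]
      · intro hxy
        rw [psi_inj i hxy])
  exact h

lemma smooth_T (i : Fin 4) : Algebra.Smooth ℂ (T i) := by
  have h1 : Algebra.Smooth ℂ (L i) := by
    have : Algebra.Smooth S (L i) := inferInstance
    have : Algebra.Smooth ℂ S := ⟨inferInstance, inferInstance⟩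
    exact Algebra.Smooth.comp ℂ S (L i)
  exact Algebra.Smooth.of_equiv (AlgEquiv.ofBijective (lam i) ⟨lam_inj i, lam_surj i⟩)

lemma l_eq (i : Fin 4) (k : ℕ) (h : (i : ℕ) = k) : l i = X - (k : ℂ[X]) := by
  unfold l y
  rw [h, map_natCast]

lemma ee_sum : (6 : ℂ[X]) = -1 * ee 0 + 3 * ee 1 + (-3) * ee 2 + ee 3 := by
  unfold ee
  simp only [zero_add, show (1 : Fin 4) + 1 = 2 from rfl, show (1 : Fin 4) + 2 = 3 from rfl,
    show (1 : Fin 4) + 3 = 0 from rfl, show (2 : Fin 4) + 1 = 3 from rfl,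
    show (2 : Fin 4) + 2 = 0 from rfl, show (2 : Fin 4) + 3 = 1 from rfl,
    show (3 : Fin 4) + 1 = 0 from rfl, show (3 : Fin 4) + 2 = 1 from rfl,
    show (3 : Fin 4) + 3 = 2 from rfl]
  rw [l_eq 0 0 rfl, l_eq 1 1 rfl, l_eq 2 2 rfl, l_eq 3 3 rfl]
  push_cast
  ring

lemma span_top : Ideal.span (Set.range fun i : Fin 4 => pz (ee i)) = ⊤ := by
  have h : ∀ i, pz (ee i) ∈ Ideal.span (Set.range fun i : Fin 4 => pz (ee i)) :=
    fun i => Ideal.subset_span ⟨i, rfl⟩
  have h6 : (6 : AA) = -1 * pz (ee 0) + 3 * pz (ee 1) + (-3) * pz (ee 2) + pz (ee 3) := by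
    have := congrArg pzH ee_sum
    simpa only [map_add, map_mul, map_neg, map_one, map_ofNat, pzH_eq] using this
  have hm : (6 : AA) ∈ Ideal.span (Set.range fun i : Fin 4 => pz (ee i)) := by
    rw [h6]
    exact add_mem (add_mem (add_mem (Ideal.mul_mem_left _ _ (h 0)) (Ideal.mul_mem_left _ _ (h 1)))
      (Ideal.mul_mem_left _ _ (h 2))) (h 3)
  refine Ideal.eq_top_of_isUnit_mem _ hm ?_
  have : (6 : AA) = algebraMap ℂ AA 6 := by rw [map_ofNat]
  rw [this]
  exact (isUnit_iff_ne_zero.2 (by norm_num : (6 : ℂ) ≠ 0)).map _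

theorem smooth_AA : Algebra.Smooth ℂ AA := by
  rw [← RingHom.smooth_algebraMap]
  refine RingHom.Smooth.ofLocalizationSpanTarget _ _ span_top ?_
  rintro ⟨_, i, rfl⟩
  have h := smooth_T i
  rw [← RingHom.smooth_algebraMap] at h
  exact h

end

end Pool.Agent.W460.OVS
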